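import Mathlib
import Pool.Agent.K1H44.LC.Plan

/-!
Project LC (helper44), piece LCM: `lcm(a_1, ..., a_n) = p^(log_p a_n) q^(log_q a_n)`.
-/

set_option autoImplicit false

open Finset

namespace Pool.Agent.K1H65.LC

open Pool.Agent.K1H44.LC

theorem pow_mem_left {p : ℕ} (q : ℕ) (hp : p.Prime) (u : ℕ) :
    0 < p ^ u ∧ (p ^ u).primeFactors ⊆ ({p, q} : Finset ℕ) := by
  refine ⟨pow_pos hp.pos _, ?_⟩
  intro r hr
  have h1 := Nat.prime_of_mem_primeFactors hr
  have h2 := Nat.dvd_of_mem_primeFactors hr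
  have h3 := h1.dvd_of_dvd_pow h2
  have h4 := (Nat.prime_dvd_prime_iff_eq h1 hp).1 h3
  rw [h4]
  exact Finset.mem_insert_self _ _

theorem pow_mem_right {q : ℕ} (p : ℕ) (hq : q.Prime) (u : ℕ) :
    0 < q ^ u ∧ (q ^ u).primeFactors ⊆ ({p, q} : Finset ℕ) := by
  refine ⟨pow_pos hq.pos _, ?_⟩
  intro r hr
  have h1 := Nat.prime_of_mem_primeFactors hr
  have h2 := Nat.dvd_of_mem_primeFactors hr
  have h3 := h1.dvd_of_dvd_pow h2
  have h4 := (Nat.prime_dvd_prime_iff_eq h1 hq).1 h3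
  rw [h4]
  exact Finset.mem_insert_of_mem (Finset.mem_singleton_self _)

theorem infset {p : ℕ} (q : ℕ) (hp : p.Prime) :
    {m : ℕ | 0 < m ∧ m.primeFactors ⊆ ({p, q} : Finset ℕ)}.Infinite :=
  Set.infinite_of_injective_forall_mem (Nat.pow_right_injective hp.two_le)
    (fun u => pow_mem_left q hp u)

theorem an_mem {p : ℕ} (q : ℕ) (hp : p.Prime) (i : ℕ) :
    0 < an {p, q} i ∧ (an {p, q} i).primeFactors ⊆ ({p, q} : Finset ℕ) :=
  Nat.nth_mem_of_infinite (infset q hp) i

theorem an_strictMono {p : ℕ} (q : ℕ) (hp : p.Prime) : StrictMono (an {p, q}) :=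
  Nat.nth_strictMono (infset q hp)

theorem an_ex {p q : ℕ} (hp : p.Prime) (n m : ℕ)
    (hm : 0 < m ∧ m.primeFactors ⊆ ({p, q} : Finset ℕ)) (hle : m ≤ an {p, q} n) :
    ∃ j ∈ Finset.range (n + 1), an {p, q} j = m := by
  classical
  have h : an {p, q} (Nat.count (fun m : ℕ => 0 < m ∧ m.primeFactors ⊆ ({p, q} : Finset ℕ)) m) = m :=
    Nat.nth_count hm
  refine ⟨_, ?_, h⟩
  rw [Finset.mem_range, Nat.lt_succ_iff, ← (an_strictMono q hp).le_iff_le, h]
  exact hle

theorem t_LCM : S_LCM := by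
  rintro p q ⟨hp, hq, hpq⟩ n
  apply Nat.dvd_antisymm
  · apply Finset.lcm_dvd
    intro i hi
    have hi' : an {p, q} i ≤ an {p, q} n :=
      (an_strictMono q hp).monotone (Nat.lt_succ_iff.1 (Finset.mem_range.1 hi))
    obtain ⟨h0, hsub⟩ := an_mem q hp i
    have hR : p ^ Nat.log p (an {p, q} n) * q ^ Nat.log q (an {p, q} n) ≠ 0 :=
      mul_ne_zero (pow_ne_zero _ hp.ne_zero) (pow_ne_zero _ hq.ne_zero)
    rw [← Nat.factorization_le_iff_dvd h0.ne' hR]
    intro r
    by_cases hr : r ∈ (an {p, q} i).primeFactors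
    · have hr2 := hsub hr
      have hrp : r.Prime := Nat.prime_of_mem_primeFactors hr
      have hlog : (an {p, q} i).factorization r ≤ Nat.log r (an {p, q} n) := by
        apply Nat.le_log_of_pow_le hrp.one_lt
        exact (Nat.ordProj_le r h0.ne').trans hi'
      refine hlog.trans ?_
      rw [← hrp.pow_dvd_iff_le_factorization hR]
      rw [Finset.mem_insert, Finset.mem_singleton] at hr2
      rcases hr2 with rfl | rfl
      · exact dvd_mul_right _ _
      · exact dvd_mul_left _ _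
    · have h5 : (an {p, q} i).factorization r = 0 :=
        Finsupp.notMem_support_iff.1 (by rwa [Nat.support_factorization])
      rw [h5]
      exact Nat.zero_le _
  · have hx : an {p, q} n ≠ 0 := (an_mem q hp n).1.ne'
    apply Nat.Coprime.mul_dvd_of_dvd_of_dvd
    · exact Nat.Coprime.pow _ _ ((Nat.coprime_primes hp hq).2 hpq)
    · obtain ⟨j, hj, hje⟩ := an_ex hp n _ (pow_mem_left q hp _) (Nat.pow_log_le_self p hx)
      have := Finset.dvd_lcm (f := an {p, q}) hj
      rw [hje] at this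
      exact this
    · obtain ⟨j, hj, hje⟩ := an_ex hp n _ (pow_mem_right p hq _) (Nat.pow_log_le_self q hx)
      have := Finset.dvd_lcm (f := an {p, q}) hj
      rw [hje] at this
      exact this

end Pool.Agent.K1H65.LC
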